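import Pool.Agent.Q171.RC.GT

/-!
# Points of bounded complexity on varieties of general type

Varieties of general type of positive dimension are not special, so Q1 predicts that their rational
points over a number field are not dense. Let `N`, `D`, `s`, `r`, `e` be given. Then there are numbers
`δ`, `E` and `B` such that the following holds for ALL complex projective varieties `X` of general type
in projective `N`-space which are given by forms of degree at most `D` (`X` is the variety of the
ideal `p`, with the function field `K`, the generic point `y` and the dimension `w`).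

(1) The union `Exc` of the nonconstant rational curves of degree at most `δ` on `X` is the intersection
of `X` with hypersurfaces of degree at most `E`; in particular it is Zariski closed.

(2) `Exc` is not equal to `X`.

(3) Let `H` be any group and let `x(h)`, `h ∈ H`, be points of `X` (over number fields, or over any
subfield of `ℂ`) whose homogeneous coordinates are given by `s` iterated recurrences with matrices of
size `r` and polynomials of degree at most `e` (`IterVec s r e x`: there are invertible matrices
`X_1(h), ..., X_s(h)` of size `r` such that, for all `g`, the entries of `X_l(g h) X_l(h)⁻¹` are values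
of polynomials of degree at most `e`, which depend only on `g`, at the entries of `X_i(h)`, `X_i(h)⁻¹`,
`i < l`, and the coordinates of `x(h)` are values of such polynomials at all entries; for instance all
points given by values of linear recurrences, by exponential polynomials in several variables, or by
orbits of linear algebraic groups). Then all but at most `B` of the points `x(h)` are in `Exc`.

So the points of bounded complexity on `X`, over all fields together, are never dense in `X`: for each
system of this kind they lie in a proper closed subset of degree bounded in terms of `N`, `D`, `s`, `r`,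
`e`, with at most `B` exceptions.
-/

set_option autoImplicit false

namespace Pool.Agent.Results.MP_9410e4_ag.GeneralTypePoints

open MvPolynomial Pool.Agent.Q171.RC Pool.Agent.Y377.ST
open Pool.Agent.TH143.GT (FunField)
open Pool.Agent.W602.GT (GeneralType)

theorem result (N D s r e : ℕ) : ∃ δ E B : ℕ,
    ∀ (p : Ideal (MvPolynomial (Fin (N + 1)) ℂ)) (K : Type) [Field K] [Algebra ℂ K] (w : ℕ)
      (y : Fin (N + 1) → K), FunField p 1 K w y → GeneralType ℂ K w → GivenBy p D →
    (∃ Gs : Set (MvPolynomial (Fin (N + 1)) ℂ), (∀ G ∈ Gs, ∃ k, k ≤ E ∧ G.IsHomogeneous k) ∧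
      ∀ x : Fin (N + 1) → ℂ, x ≠ 0 → (OnR p δ x ↔
        (∀ F ∈ p, (∃ k, F.IsHomogeneous k) → eval x F = 0) ∧ ∀ G ∈ Gs, eval x G = 0)) ∧
    (∃ x : Fin (N + 1) → ℂ, x ≠ 0 ∧ (∀ F ∈ p, (∃ k, F.IsHomogeneous k) → eval x F = 0) ∧
      ¬ OnR p δ x) ∧
    ∀ (H : Type) [Group H] (x : H → Fin (N + 1) → ℂ), IterVec s r e x →
      (∀ h, ∀ F ∈ p, (∃ k, F.IsHomogeneous k) → eval (x h) F = 0) →
      {P | ∃ (h : H) (h0 : x h ≠ 0), ¬ OnR p δ (x h) ∧
        P = Projectivization.mk ℂ (x h) h0}.encard ≤ (B : ℕ∞) := by
  obtain ⟨δ, B, hδ⟩ := rec_locus N D s r e
  obtain ⟨E, hE⟩ := exc_closed N D δ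
  refine ⟨δ, E, B, fun p K _ _ w y hy hL hD => ⟨hE p hD, ?_, ?_⟩⟩
  · obtain ⟨x, h1, h2, h3⟩ := gt_point hy hL hD δ
    exact ⟨x, h1, h2, fun h => h3 ((onR_iff hD δ x).2 h)⟩
  · intro H _ x hx hxX
    have h1 := hδ (formsLe p D) (fun F hF => hF.2) H x hx (fun h F hF => hxX h F hF.1 (by
      obtain ⟨-, k, -, hk⟩ := hF
      exact ⟨k, hk⟩))
    simpa only [onR_iff hD] using h1

end Pool.Agent.Results.MP_9410e4_ag.GeneralTypePoints
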