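import Pool.Agent.Q171.RC.GT

/-!
# P-recursive and q-recursive sequences of points on varieties of general type

Varieties of general type of positive dimension are not special, so Q1 predicts that their rational
points over a number field are not dense. We consider sequences of points `x 0, x 1, ...` of complex
projective varieties `X` (over any subfields of `ℂ`, for instance over number fields) whose homogeneous
coordinates satisfy nontrivial linear recurrences `∑ P_i (t m) x (m + i) j = 0`, `i ≤ r`, where the
`P_i` are polynomials of degree at most `e` and the `t m` are different numbers with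
`t (m + 1) = α t m + β`; for instance `t m = m` (P-recursive sequences) or `t m = q ^ m`.

For all `N`, `D`, `r`, `e` there are numbers `d` and `E` such that the following holds for ALL complex
projective varieties `X` of general type in projective `N`-space which are given by forms of degree at
most `D` (`X` is the variety of the ideal `p`, with the function field `K`, the generic point `y` and
the dimension `w`).

(1) The union `Exc` of the nonconstant rational curves of degree at most `d` on `X` is the intersection
of `X` with hypersurfaces of degree at most `E`; in particular it is Zariski closed.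

(2) `Exc` is not equal to `X`.

(3) Among any `d + 1` consecutive points of such a sequence of points of `X` two are equal, or one of
them lies in `Exc`.
-/

set_option autoImplicit false

namespace Pool.Agent.Results.MP_9410e4_ag.GeneralTypeSequences

open MvPolynomial Pool.Agent.Q171.RC
open Pool.Agent.TH143.GT (FunField)
open Pool.Agent.W602.GT (GeneralType)

/-- The homogeneous coordinates of the points `x m`, `s ≤ m ≤ s + B`, satisfy nontrivial linear
difference equations `∑ P_i (t m) x (m + i) j = 0` of order at most `r`; the coefficients are values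
of polynomials of degree at most `e` at different points `t m` with `t (m + 1) = α t m + β`. -/
structure RecursiveRun {n : ℕ} (r e s B : ℕ) (x : ℕ → Fin (n + 1) → ℂ) : Prop where
  ne : ∀ m, s ≤ m → m ≤ s + B → x m ≠ 0
  eqn : ∃ (t : ℕ → ℂ) (α β : ℂ), (∀ m, t (m + 1) = α * t m + β) ∧
    (∀ i j, s ≤ i → i < j → j ≤ s + B → t i ≠ t j) ∧ ∀ j, ∃ P : ℕ → Polynomial ℂ,
      (∃ i ≤ r, P i ≠ 0) ∧ (∀ i, (P i).natDegree ≤ e) ∧
        ∀ m, s ≤ m → m ≤ s + B → ∑ i ∈ Finset.range (r + 1), (P i).eval (t m) * x (m + i) j = 0

theorem result (N D r e : ℕ) : ∃ d E : ℕ,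
    ∀ (p : Ideal (MvPolynomial (Fin (N + 1)) ℂ)) (K : Type) [Field K] [Algebra ℂ K] (w : ℕ)
      (y : Fin (N + 1) → K), FunField p 1 K w y → GeneralType ℂ K w → GivenBy p D →
    (∃ Gs : Set (MvPolynomial (Fin (N + 1)) ℂ), (∀ G ∈ Gs, ∃ k, k ≤ E ∧ G.IsHomogeneous k) ∧
      ∀ x : Fin (N + 1) → ℂ, x ≠ 0 → (OnR p d x ↔
        (∀ F ∈ p, (∃ k, F.IsHomogeneous k) → eval x F = 0) ∧ ∀ G ∈ Gs, eval x G = 0)) ∧
    (∃ x : Fin (N + 1) → ℂ, x ≠ 0 ∧ (∀ F ∈ p, (∃ k, F.IsHomogeneous k) → eval x F = 0) ∧
      ¬ OnR p d x) ∧
    ∀ (s : ℕ) (x : ℕ → Fin (N + 1) → ℂ), RecursiveRun r e s d x →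
      (∀ m, s ≤ m → m ≤ s + d → ∀ F ∈ p, (∃ k, F.IsHomogeneous k) → eval (x m) F = 0) →
      (∃ i j, s ≤ i ∧ i < j ∧ j ≤ s + d ∧ ∀ u v, x i u * x j v = x i v * x j u) ∨
        ∃ m, s ≤ m ∧ m ≤ s + d ∧ OnR p d (x m) := by
  obtain ⟨d, hd⟩ := seq_strong N D r e
  obtain ⟨E, hE⟩ := exc_closed N D d
  refine ⟨d, E, fun p K _ _ w y hy hL hD => ⟨hE p hD, ?_, fun s x hx hX => ?_⟩⟩
  · obtain ⟨x, h1, h2, h3⟩ := gt_point hy hL hD d
    exact ⟨x, h1, h2, fun h => h3 ((onR_iff hD d x).2 h)⟩
  · obtain ⟨t, α, β, h1, h2, h3⟩ := hx.eqn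
    by_cases hdiff : ∃ i j, s ≤ i ∧ i < j ∧ j ≤ s + d ∧ ∀ u v, x i u * x j v = x i v * x j u
    · exact Or.inl hdiff
    · right
      push Not at hdiff
      obtain ⟨m, hm, h4⟩ := hd (formsLe p D) (fun F hF => hF.2) (fun m => t (s + m))
        (fun m => x (s + m))
        { aff := ⟨α, β, fun m => h1 (s + m)⟩
          inj := fun i j hij hj => h2 (s + i) (s + j) (by omega) (by omega) (by omega)
          ne := fun m hm => hx.ne (s + m) (by omega) (by omega)
          eqn := by
            intro j
            obtain ⟨P, hP1, hP2, hP3⟩ := h3 j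
            refine ⟨P, hP1, hP2, fun m hm => ?_⟩
            have h4 := hP3 (s + m) (by omega) (by omega)
            rw [← h4]
            refine Finset.sum_congr rfl fun i _ => ?_
            rw [← Nat.add_assoc]
          on := fun m hm F hF => hX (s + m) (by omega) (by omega) F hF.1 (by
            obtain ⟨-, k, -, hk⟩ := hF
            exact ⟨k, hk⟩)
          diff := fun i j hij hj => hdiff (s + i) (s + j) (by omega) (by omega) (by omega) }
      exact ⟨s + m, by omega, by omega, (onR_iff hD d _).1 h4⟩

end Pool.Agent.Results.MP_9410e4_ag.GeneralTypeSequences
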