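import Pool.Agent.Q1.FB.Img

set_option autoImplicit false

/-!
# Families of rational points and rational maps to varieties which are not uniruled

Let `X` be the integral closed subvariety of projective `n`-space over a countable field `k` (for
example a number field) given by the forms in `FF`, and let `g = (g_0, ..., g_m)` be a rational map
from `X` to projective `m`-space, given by forms of degree `δ` over `k`.  Suppose that the closure `Y`
of the image of `X`, whose ideal is `imgI (Ideal.span FF) g`, is not uniruled (for example, a variety
of nonnegative Kodaira dimension).  There is no hypothesis on `X` itself and on the fibres of `g`.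

We consider families of `L`-rational points of `X`, for arbitrary fields `L ⊇ k` which can be embedded
in `ℂ` (for example all finite extensions of `k`), parametrized by arbitrary groups `H` and given by
iterated recurrences of complexity `(s, r, e)` (`IterVec s r e x`).

Then for all `s`, `r`, `e` there are ONE proper closed subset `X ∩ {G = 0}` of `X` over `k` and ONE
number `B` such that for ALL `L`, `H` and all families `x` of this kind, the points of the family
outside of `G = 0` are in at most `B` fibres of `g`.  In particular if `Y` has positive dimension, then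
no family of this kind is Zariski dense in `X`: potential density of a variety `X` can be proved by
one family of this kind only if all varieties of positive dimension dominated by `X` are uniruled.
-/

namespace Pool.Agent.Results.MP_9410e4_ag.ImagesOfFamilies

open MvPolynomial Pool.Agent.Q1.FB Pool.Agent.Y377.ST Pool.Agent.H533R3.SL

theorem result (k : Type) [Field k] [Countable k] (n m : ℕ)
    (FF : Finset (MvPolynomial (Fin (n + 1)) k)) (hhom : ∀ F ∈ FF, ∃ e, F.IsHomogeneous e)
    (hprime : (Ideal.span (FF : Set (MvPolynomial (Fin (n + 1)) k))).IsPrime)
    (g : Fin (m + 1) → MvPolynomial (Fin (n + 1)) k) (δ : ℕ) (hδ : 0 < δ)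
    (hg : ∀ j, (g j).IsHomogeneous δ)
    (hnu : ¬ Uniruled (imgI (Ideal.span (FF : Set (MvPolynomial (Fin (n + 1)) k))) g))
    (s r e : ℕ) :
    ∃ G : MvPolynomial (Fin (n + 1)) k, (∃ d, G.IsHomogeneous d) ∧
      G ∉ Ideal.span (FF : Set (MvPolynomial (Fin (n + 1)) k)) ∧
      ∃ B : ℕ, ∀ (L : Type) [Field L] [Algebra k L] (_ : L →+* ℂ) (H : Type) [Group H]
        (x : H → Fin (n + 1) → L), IterVec s r e x → (∀ h, ∀ F ∈ FF, aeval (x h) F = 0) →
        (imgOff g G x).encard ≤ (B : ℕ∞) := by
  obtain ⟨G, h1, h2, B, h3⟩ := img_uniform (FF : Set (MvPolynomial (Fin (n + 1)) k))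
    (fun F hF => hhom F hF) hprime g hδ hg hnu s r e
  exact ⟨G, h1, h2, B, fun L _ _ τ H _ x hx hX => h3 L τ H x hx fun h F hF => hX h F hF⟩

end Pool.Agent.Results.MP_9410e4_ag.ImagesOfFamilies
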