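import Mathlib
import Pool.Agent.Q13.NS.Camp
import Pool.Agent.Q13.NS.Orb
import Pool.Agent.Q13.DS.Cons

/-!
# Sets of points which are defined recursively are not dense in non-special varieties

Campana's conjecture: if the rational points of a projective variety `X` over a number field are
potentially dense, then `X` is special, i.e., there is no fibration of general type on `X`.

Let `X` be a projective variety over a field `k` with an embedding `σ` in `ℂ`, and let `L ⊇ k` be a
field with an extension `τ : L → ℂ` of `σ` (for instance finite extensions of number fields). We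
consider sequences `x m` of points of `X(L)` of the following two kinds (`Recursive`).

(a) Orbits: there are a projective space `P` over `ℂ`, a sequence of points `v m` of `P` and
rational maps `f`, `ψ`, defined and regular at all points `v m`, such that `v (m + 1) = f (v m)` and
`x m = ψ (v m)`. So `f` can be a rational map of an arbitrary variety `V` in `P` to itself.

(b) Linear recurrences: each of the homogeneous coordinates of `x m` satisfies a nontrivial linear
recurrence with coefficients in a finitely generated field `B` of sequences of complex numbers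
(sequences are identified if they are eventually equal; `B` is closed under the shift; the nonzero
elements of `B` are eventually nonzero).

The result: if `X` is geometrically integral and has a fibration of general type (over `ℂ`), then
such a sequence in `X(L)` is not Zariski dense in `X`: its points lie on a hypersurface over `L`
which does not contain `X`.
-/

set_option autoImplicit false

namespace Pool.Agent.Results.MP_9410e4_ag.NonSpecialOrbits

open MvPolynomial Filter FF Pool.Agent.TH143.DE Pool.Agent.TH143.HE Pool.Agent.TH143.GE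
  Pool.Agent.TH143.GT Pool.Agent.W602.GT Pool.Agent.Q13.DS Pool.Agent.Q13.KO Pool.Agent.Q13.NS

variable {k : Type} [Field k] {N : ℕ}

/-- The sequence of points is given by (a) an orbit of a rational map, or (b) linear recurrences
over a finitely generated field of sequences. -/
def Recursive (x : ℕ → Fin (N + 1) → ℂ) : Prop :=
  (∃ (n : ℕ) (v : ℕ → Fin (n + 1) → ℂ), (∀ m, v m ≠ 0) ∧ RatImage v (fun m => v (m + 1)) ∧
    RatImage v x) ∨
  ∃ B : Subalgebra ℂ (ℕ → ℂ), CoefField B ∧ FinGen B ∧ ∀ j, LinRec B fun m => x m j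

/-- The forms in `FF` define a geometrically integral projective variety (over `ℂ`, by `σ`) with a
fibration of general type: `F` is the function field over `ℂ` and `y` the generic point. -/
def HasFibGT (σ : k →+* ℂ) (FF : Set (MvPolynomial (Fin (N + 1)) k)) : Prop :=
  ∃ (F : Type) (_ : Field F) (_ : Algebra ℂ F) (w : ℕ) (y : Fin (N + 1) → F),
    FunField ((Ideal.span FF).map (MvPolynomial.map σ)) 1 F w y ∧
      FibGT w (fun _ : Place ℂ F => False)

theorem ne_zero {L : Type} [Field L] (τ : L →+* ℂ) {y : Fin (N + 1) → L} (h : y ≠ 0) :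
    (fun j => τ (y j)) ≠ 0 := by
  intro h0
  refine h (funext fun j => ?_)
  have h1 := congrFun h0 j
  simpa using h1

/-- all sequences of both kinds are orbits of the shift on finitely generated rings of germs -/
theorem exists_orbit {x : ℕ → Fin (N + 1) → ℂ} (hx : ∀ m, x m ≠ 0) (h : Recursive x) :
    ∃ (n : ℕ) (V : Fin n → GG) (x' : ℕ → Fin (N + 1) → ℂ) (κ : ℕ → ℂ), Stable V ∧ Rel V x' ∧
      (∀ m, κ m ≠ 0) ∧ ∀ m j, x' m j = κ m * x m j := by
  rcases h with ⟨n, v, hv, hT, hU⟩ | ⟨B, hB, hfg, hrec⟩
  · obtain ⟨V, x', κ, h1⟩ := exists_orbit_rat hv hx hT hU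
    exact ⟨_, V, x', κ, h1⟩
  · obtain ⟨n, V, h1, h2⟩ := exists_orbit_lin hB hfg hrec
    exact ⟨n, V, x, fun _ => 1, h1, h2, fun _ => one_ne_zero, fun m j => (one_mul _).symm⟩

theorem scaled_ne {x x' : ℕ → Fin (N + 1) → ℂ} {κ : ℕ → ℂ} (hx : ∀ m, x m ≠ 0)
    (hκ : ∀ m, κ m ≠ 0) (h : ∀ m j, x' m j = κ m * x m j) (m : ℕ) : x' m ≠ 0 := by
  intro h0
  obtain ⟨j, hj⟩ := Function.ne_iff.1 (hx m)
  have h1 := congrFun h0 j
  rw [h] at h1
  exact (mul_ne_zero (hκ m) hj) h1

theorem result (σ : k →+* ℂ) (FF : Set (MvPolynomial (Fin (N + 1)) k))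
    (hFF : ∀ G ∈ FF, IsForm G) (hX : HasFibGT σ FF) (L : Type) [Field L] [Algebra k L]
    (τ : L →+* ℂ) (hτ : τ.comp (algebraMap k L) = σ) (x : ℕ → Fin (N + 1) → L)
    (hne : ∀ m, x m ≠ 0) (hx : ∀ m, ∀ G ∈ FF, eval₂ (algebraMap k L) (x m) G = 0)
    (hrec : Recursive (fun m j => τ (x m j))) :
    ∃ G : MvPolynomial (Fin (N + 1)) L, IsForm G ∧
      G ∉ (Ideal.span FF).map (MvPolynomial.map (algebraMap k L)) ∧ ∀ m, eval (x m) G = 0 := by
  obtain ⟨F, _, _, w, y, hy, hGT⟩ := hX
  by_contra hcon
  push Not at hcon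
  obtain ⟨p, e, g, c, hp, he, hc, hg, hfib⟩ := hGT.genFib
  have hw : 0 < w := by
    refine Nat.pos_of_ne_zero fun h0 => ?_
    have h1 : Algebra.trdeg ℂ F = 0 := by
      rw [hy.sub.dim, h0, Nat.cast_zero]
    exact (hg.transcendental ⟨0, hp⟩)
      ((trdeg_eq_zero_iff.1 h1).isAlgebraic (g ⟨0, hp⟩))
  let _ : Algebra L ℂ := τ.toAlgebra
  have hI : ((Ideal.span FF).map (MvPolynomial.map (algebraMap k L))).map
      (MvPolynomial.map (algebraMap L ℂ)) = (Ideal.span FF).map (MvPolynomial.map σ) := by
    rw [Ideal.map_map]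
    congr 1
    rw [← hτ]
    ext G
    · simp [RingHom.algebraMap_toAlgebra]
    · simp
  have h1 : SeqDense ((Ideal.span FF).map (MvPolynomial.map σ)) fun m j => τ (x m j) := by
    rw [← hI]
    refine seqDense_of fun G hG h0 => ?_
    by_contra hG0
    obtain ⟨m, hm⟩ := hcon G hG hG0
    exact hm (h0 m)
  have hXc : ∀ m, ∀ G ∈ (Ideal.span FF).map (MvPolynomial.map σ),
      eval (fun j => τ (x m j)) G = 0 := by
    intro m
    change (Ideal.span FF).map (MvPolynomial.map σ) ≤ RingHom.ker (eval fun j => τ (x m j))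
    rw [Ideal.map_span, Ideal.span_le]
    rintro _ ⟨G, hG, rfl⟩
    change eval (fun j => τ (x m j)) (MvPolynomial.map σ G) = 0
    rw [eval_map, ← hτ]
    have h2 := eval₂_comp_left τ (algebraMap k L) (x m) G
    rw [hx m G hG, map_zero] at h2
    exact h2.symm
  have hnec : ∀ m, (fun j => τ (x m j)) ≠ 0 := fun m => ne_zero τ (hne m)
  obtain ⟨n, V, x', κ, hV, hR, hκ, hs⟩ := exists_orbit hnec hrec
  have hsub : ∀ m, ∀ G ∈ (Ideal.span FF).map (MvPolynomial.map σ), eval (x' m) G = 0 := by
    intro m
    change (Ideal.span FF).map (MvPolynomial.map σ) ≤ RingHom.ker (eval (x' m))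
    rw [Ideal.map_span, Ideal.span_le]
    rintro _ ⟨G, hG, rfl⟩
    change eval (x' m) (MvPolynomial.map σ G) = 0
    obtain ⟨d, hd⟩ := hFF G hG
    rw [eval_scale (hd.map σ) (hs m), hXc m _ (Ideal.mem_map_of_mem _ (Ideal.subset_span hG)),
      mul_zero]
  exact not_dense_fib hy hp he hc hg hfib V x' hV hR
    (Eventually.of_forall (scaled_ne hnec hκ hs)) (Eventually.of_forall hsub)
    (tail_scale hκ hs (h1.tail hy hw))

end Pool.Agent.Results.MP_9410e4_ag.NonSpecialOrbits
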